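import Pool.Agent.W841.PK.Stm2

set_option autoImplicit false

namespace Pool.Agent.W240.PK

open Finset W841.PK
open scoped Classical symmDiff

noncomputable section

variable {n : ℕ}

/-- the symmetric difference and the correlation -/
theorem two_Dl (S : Finset (Fin n)) (ρ : Rule n) (t : ℕ) (G : SimpleGraph (Fin n)) (w2 : Fin n)
    (hw : ww S ρ t G ∈ RR S ρ t G) (hw2 : w2 ∈ RR S ρ t G) (hne : w2 ≠ ww S ρ t G) :
    2 * Dl S ρ t G w2 = ((RR S ρ t G).card : ℝ) - 2 - qq S ρ t G w2 := by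
  have h1 : 2 * Dl S ρ t G w2 + qq S ρ t G w2 =
      ∑ b ∈ RR S ρ t G, (if b = ww S ρ t G ∨ b = w2 then (0 : ℝ) else 1) := by
    unfold Dl Aw Bw qq
    rw [card_filter, card_filter]
    push_cast
    rw [← sum_add_distrib, mul_sum, ← sum_add_distrib]
    refine sum_congr rfl fun b _ => ?_
    by_cases hbw : b = ww S ρ t G
    · simp [hbw, ee_self]
    · by_cases hb2 : b = w2
      · simp [hb2, ee_self]
      · have e1 : (ww S ρ t G) ≠ b := fun h => hbw h.symm
        have e2 : w2 ≠ b := fun h => hb2 h.symm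
        by_cases a1 : G.Adj b (ww S ρ t G) <;> by_cases a2 : G.Adj b w2
        · have a1' := a1.symm
          have a2' := a2.symm
          simp [hbw, hb2, a1, a2, ee, e1, e2, a1', a2']
        · have a1' := a1.symm
          have a2' : ¬ G.Adj w2 b := fun h => a2 h.symm
          simp [hbw, hb2, a1, a2, ee, e1, e2, a1', a2']
          norm_num
        · have a1' : ¬ G.Adj (ww S ρ t G) b := fun h => a1 h.symm
          have a2' := a2.symm
          simp [hbw, hb2, a1, a2, ee, e1, e2, a1', a2']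
          norm_num
        · have a1' : ¬ G.Adj (ww S ρ t G) b := fun h => a1 h.symm
          have a2' : ¬ G.Adj w2 b := fun h => a2 h.symm
          simp [hbw, hb2, a1, a2, ee, e1, e2, a1', a2']
  have h2 : ∑ b ∈ RR S ρ t G, (if b = ww S ρ t G ∨ b = w2 then (0 : ℝ) else 1) =
      ((RR S ρ t G).card : ℝ) - 2 := by
    have h3 : ∑ b ∈ RR S ρ t G, (if b = ww S ρ t G ∨ b = w2 then (0 : ℝ) else 1) =
        ∑ b ∈ RR S ρ t G, ((1 : ℝ) - (if b = ww S ρ t G then 1 else 0) -
          (if b = w2 then 1 else 0)) := by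
      refine sum_congr rfl fun b _ => ?_
      by_cases hbw : b = ww S ρ t G
      · have : b ≠ w2 := fun h => hne (h ▸ hbw)
        simp [hbw, hne.symm]
      · by_cases hb2 : b = w2
        · simp [hb2, hne]
        · simp [hbw, hb2]
    rw [h3, sum_sub_distrib, sum_sub_distrib, sum_ite_eq', sum_ite_eq', if_pos hw, if_pos hw2]
    simp
    ring
  linarith

theorem dycnt (hb : S_Basic) (hc : S_PRC) : S_DYcnt := by
  intro V0 C hV hC
  refine ⟨512 * C ^ 2 + 8 * C * V0, max 2 ⌈8 * V0⌉₊, fun n hn S ρ t G hS hρ hPR hAct => ?_⟩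
  have hn2 : 2 ≤ n := le_trans (le_max_left _ _) hn
  have hn8 : 8 * V0 ≤ n := le_trans (Nat.le_ceil _) (by exact_mod_cast le_trans (le_max_right _ _) hn)
  have hV0 : 0 < V0 := by linarith
  have hC0 : 0 < C := by linarith
  have hnpos : (0 : ℝ) < n := by
    have : 0 < n := by omega
    exact_mod_cast this
  have hlog : 0 ≤ Real.log n := Real.log_nonneg (by
    have : 1 ≤ n := by omega
    exact_mod_cast this)
  obtain ⟨⟨hwS, hwR⟩, hr⟩ := hAct
  set w := ww S ρ t G with hwdef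
  set R := RR S ρ t G with hRdef
  set N := NN S ρ t G with hNdef
  have hNR : N ⊆ R := NN_sub S ρ t G
  have hr8 : (8 : ℝ) ≤ (rr S ρ t G : ℝ) := by
    refine le_trans ?_ hr
    rw [le_div_iff₀ hV0]
    exact hn8
  have hrR : (rr S ρ t G : ℝ) ≤ (R.card : ℝ) := by
    exact_mod_cast card_le_card hNR
  have hRn : (R.card : ℝ) ≤ n := by
    have := card_le_univ R
    rw [Fintype.card_fin] at this
    exact_mod_cast this
  have hR0 : (0 : ℝ) < R.card := by linarith
  obtain ⟨_, hc2, hc3⟩ := hc n C G hn2 hC hPR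
  -- general bound
  have hgen : ∀ (β : Fin n → ℝ) (A : Finset (Fin n)), (∀ b, |β b| ≤ 1) →
      ∑ a ∈ A, |∑ b ∈ R, β b * ee G a b| ≤ 8 * C * n * √(n : ℝ) * √(Real.log n) := by
    intro β A hβ
    refine (hc2 β A R hβ).trans ?_
    have hA : (A.card : ℝ) ≤ n := by
      have := card_le_univ A
      rw [Fintype.card_fin] at this
      exact_mod_cast this
    have hA0 : (0 : ℝ) ≤ A.card := by positivity
    have h1 : (A.card : ℝ) * R.card * ((A.card : ℝ) + R.card) * Real.log n ≤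
        (2 * (n : ℝ) * √(n : ℝ) * √(Real.log n)) ^ 2 := by
      have e : (2 * (n : ℝ) * √(n : ℝ) * √(Real.log n)) ^ 2 = 4 * (n : ℝ) ^ 3 * Real.log n := by
        rw [mul_pow, mul_pow, mul_pow, Real.sq_sqrt hnpos.le, Real.sq_sqrt hlog]
        ring
      rw [e]
      have h2 : (A.card : ℝ) * R.card ≤ (n : ℝ) * n := mul_le_mul hA hRn hR0.le hnpos.le
      have h3 : (A.card : ℝ) * R.card * ((A.card : ℝ) + R.card) ≤ (n : ℝ) * n * (n + n) :=
        mul_le_mul h2 (by linarith) (by positivity) (by positivity)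
      have h4 : (A.card : ℝ) * R.card * ((A.card : ℝ) + R.card) ≤ 4 * (n : ℝ) ^ 3 := by
        nlinarith [pow_pos hnpos 3]
      exact mul_le_mul_of_nonneg_right h4 hlog
    have h5 : √((A.card : ℝ) * R.card * ((A.card : ℝ) + R.card) * Real.log n) ≤
        2 * (n : ℝ) * √(n : ℝ) * √(Real.log n) := Real.sqrt_le_iff.2 ⟨by positivity, h1⟩
    calc 4 * C * √((A.card : ℝ) * R.card * ((A.card : ℝ) + R.card) * Real.log n)
        ≤ 4 * C * (2 * (n : ℝ) * √(n : ℝ) * √(Real.log n)) :=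
          mul_le_mul_of_nonneg_left h5 (by positivity)
      _ = _ := by ring
  have hwβ : ∀ b, |ee G w b| ≤ 1 := fun b => abs_ee_le G w b
  have h1β : ∀ b : Fin n, |(fun _ : Fin n => (1 : ℝ)) b| ≤ 1 := fun b => by simp
  have hX : ∀ a, Xt S ρ t G a = ∑ b ∈ R, (fun _ : Fin n => (1 : ℝ)) b * ee G a b := fun a => by
    simp [Xt, hRdef]
  have hq : ∀ a, qq S ρ t G a = ∑ b ∈ R, ee G w b * ee G a b := fun a => rfl
  have hKC : 8 * C ≤ 512 * C ^ 2 + 8 * C * V0 := by nlinarith
  have hKC2 : 400 * C ^ 2 ≤ 512 * C ^ 2 + 8 * C * V0 := by nlinarith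
  have hKC3 : 512 * C ^ 2 ≤ 512 * C ^ 2 + 8 * C * V0 := by nlinarith
  have hKC4 : 8 * C * V0 ≤ 512 * C ^ 2 + 8 * C * V0 := by nlinarith
  have hup : 8 * C * n * √(n : ℝ) * √(Real.log n) ≤
      (512 * C ^ 2 + 8 * C * V0) * n * √(n : ℝ) * √(Real.log n) := by
    have : 0 ≤ (n : ℝ) * √(n : ℝ) * √(Real.log n) := by positivity
    nlinarith
  have hup2 : 400 * C ^ 2 * (n : ℝ) ^ 2 * Real.log n ^ 2 ≤
      (512 * C ^ 2 + 8 * C * V0) * (n : ℝ) ^ 2 * Real.log n ^ 2 := by
    have : 0 ≤ (n : ℝ) ^ 2 * Real.log n ^ 2 := by positivity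
    nlinarith
  have hsumX : ∑ a ∈ N, |Xt S ρ t G a| ≤ 8 * C * n * √(n : ℝ) * √(Real.log n) := by
    simp only [hX]
    exact hgen _ N h1β
  have h3 : ∀ w2 ∈ N.erase w, 2 * Dl S ρ t G w2 = (R.card : ℝ) - 2 - qq S ρ t G w2 := by
    intro w2 hw2
    rw [mem_erase] at hw2
    exact two_Dl S ρ t G w2 hwR (hNR hw2.2) hw2.1
  refine ⟨?_, ?_, h3, ?_, ?_, hsumX.trans hup, ?_, ?_⟩
  · -- bad2
    set A := bad2 S ρ t G with hAdef
    have hA1 : ∑ a ∈ A, |∑ b ∈ R, ee G w b * ee G a b| ≤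
        4 * C * √((A.card : ℝ) * R.card * ((A.card : ℝ) + R.card) * Real.log n) :=
      hc2 _ A R hwβ
    have hA2 : (A.card : ℝ) * (R.card / 4) ≤ ∑ a ∈ A, |∑ b ∈ R, ee G w b * ee G a b| := by
      rw [← nsmul_eq_mul, ← sum_const]
      refine sum_le_sum fun a ha => ?_
      rw [hAdef, bad2, mem_filter] at ha
      exact le_of_lt (not_le.1 ha.2)
    have hAR : (A.card : ℝ) ≤ R.card := by
      have : A ⊆ R := (filter_subset _ _).trans ((erase_subset _ _).trans hNR)
      exact_mod_cast card_le_card this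
    rcases (Nat.cast_nonneg A.card : (0 : ℝ) ≤ A.card).eq_or_lt with h0 | h0
    · rw [← h0]
      positivity
    · have h4 : ((A.card : ℝ) * (R.card / 4)) ^ 2 ≤
          16 * C ^ 2 * ((A.card : ℝ) * R.card * ((A.card : ℝ) + R.card) * Real.log n) := by
        have h5 := pow_le_pow_left₀ (by positivity) (hA2.trans hA1) 2
        rw [mul_pow (4 * C), Real.sq_sqrt (by positivity)] at h5
        linarith [h5]
      have h6 : (A.card : ℝ) * R.card * ((A.card : ℝ) * R.card) ≤
          (A.card : ℝ) * R.card * (256 * C ^ 2 * ((A.card : ℝ) + R.card) * Real.log n) := by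
        nlinarith [h4]
      have h7 : (A.card : ℝ) * R.card ≤
          256 * C ^ 2 * ((A.card : ℝ) + R.card) * Real.log n :=
        le_of_mul_le_mul_left h6 (by positivity)
      have h8 : (R.card : ℝ) * A.card ≤ R.card * (512 * C ^ 2 * Real.log n) := by
        have h9 : 256 * C ^ 2 * ((A.card : ℝ) + R.card) * Real.log n ≤
            256 * C ^ 2 * ((R.card : ℝ) + R.card) * Real.log n :=
          mul_le_mul_of_nonneg_right
            (mul_le_mul_of_nonneg_left (by linarith) (by positivity)) hlog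
        nlinarith
      have h10 : (A.card : ℝ) ≤ 512 * C ^ 2 * Real.log n := le_of_mul_le_mul_left h8 hR0
      exact h10.trans (mul_le_mul_of_nonneg_right hKC3 hlog)
  · intro w2 hw2
    rw [good2, mem_filter] at hw2
    have h4 := h3 w2 hw2.1
    have h5 := (abs_le.1 hw2.2).2
    linarith
  · simp only [hq]
    exact (hgen _ _ hwβ).trans hup
  · simp only [hq]
    refine le_trans ?_ ((hc3 _ R hwβ).trans hup2)
    exact sum_le_sum_of_subset_of_nonneg (subset_univ _) fun _ _ _ => sq_nonneg _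
  · simp only [hX]
    refine le_trans ?_ ((hc3 _ R h1β).trans hup2)
    exact sum_le_sum_of_subset_of_nonneg (subset_univ _) fun _ _ _ => sq_nonneg _
  · unfold Xb
    have hr0 : (0 : ℝ) < (rr S ρ t G : ℝ) := by linarith
    rw [abs_div, abs_of_pos hr0, div_le_iff₀ hr0]
    have h4 : |∑ a ∈ N, Xt S ρ t G a| ≤ 8 * C * n * √(n : ℝ) * √(Real.log n) :=
      (abs_sum_le_sum_abs _ _).trans hsumX
    refine h4.trans ?_
    have h5 : (n : ℝ) ≤ V0 * (rr S ρ t G : ℝ) := by
      rw [div_le_iff₀ hV0] at hr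
      linarith
    have h6 : 0 ≤ √(n : ℝ) * √(Real.log n) := by positivity
    calc 8 * C * n * √(n : ℝ) * √(Real.log n) = 8 * C * (√(n : ℝ) * √(Real.log n)) * n := by ring
      _ ≤ 8 * C * (√(n : ℝ) * √(Real.log n)) * (V0 * (rr S ρ t G : ℝ)) :=
        mul_le_mul_of_nonneg_left h5 (by positivity)
      _ = 8 * C * V0 * (√(n : ℝ) * √(Real.log n) * (rr S ρ t G : ℝ)) := by ring
      _ ≤ (512 * C ^ 2 + 8 * C * V0) * (√(n : ℝ) * √(Real.log n) * (rr S ρ t G : ℝ)) :=
        mul_le_mul_of_nonneg_right hKC4 (by positivity)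
      _ = _ := by ring

end

end Pool.Agent.W240.PK
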