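import Pool.Agent.W841.PK.Stm2

set_option autoImplicit false

namespace Pool.Agent.W240.PK

open Finset W841.PK
open scoped Classical symmDiff

noncomputable section

/-- before the first removal of a non-planted vertex -/
theorem start (hb : S_Basic) {n : ℕ} (S : Finset (Fin n)) (ρ : Rule n) (t : ℕ)
    (G : SimpleGraph (Fin n)) (hρ : IsRule ρ) (hS : S.card = Nat.sqrt n) (hn : 2 ≤ n)
    (ht : rr S ρ t G = n - Nat.sqrt n) :
    t < n ∧ NN S ρ t G = univ \ S ∧ (∀ i < t, ww S ρ i G ∈ S) ∧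
    (∀ i ≤ t, rr S ρ i G = n - Nat.sqrt n) ∧ (∀ a, Xs S ρ t G a = Xs S ρ 0 G a) ∧
    ∀ a, zz S ρ t G a = √(n : ℝ) / ((n - Nat.sqrt n : ℕ) : ℝ) * Xs S ρ 0 G a := by
  have hk : Nat.sqrt n < n := Nat.sqrt_lt_self (by omega)
  have hcard : (univ \ S).card = n - Nat.sqrt n := by
    rw [card_sdiff_of_subset (subset_univ S), card_univ, Fintype.card_fin, hS]
  have hsub : ∀ i, NN S ρ i G ⊆ univ \ S := fun i => sdiff_subset_sdiff (subset_univ _) le_rfl
  have hle : ∀ i, rr S ρ i G ≤ n - Nat.sqrt n := fun i => by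
    rw [← hcard]; exact card_le_card (hsub i)
  have htn : t < n := by
    by_contra h
    have h1 : RR S ρ t G ⊆ RR S ρ n G := RR_anti S ρ G (not_lt.1 h)
    have h2 := (hb n S ρ n G hρ).1 le_rfl
    rw [Nat.sub_self, card_eq_zero] at h2
    rw [h2, subset_empty] at h1
    have h3 : rr S ρ t G = 0 := by simp [rr, NN, h1]
    omega
  have hrr : ∀ i ≤ t, rr S ρ i G = n - Nat.sqrt n := by
    intro i hi
    have h1 : NN S ρ t G ⊆ NN S ρ i G := sdiff_subset_sdiff (RR_anti S ρ G hi) le_rfl
    have h2 : rr S ρ t G ≤ rr S ρ i G := card_le_card h1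
    have h3 := hle i
    omega
  have hNN : ∀ i ≤ t, NN S ρ i G = univ \ S := by
    intro i hi
    refine eq_of_subset_of_card_le (hsub i) ?_
    rw [hcard]
    exact (hrr i hi).ge
  have hww : ∀ i < t, ww S ρ i G ∈ S := by
    intro i hi
    by_contra h
    obtain ⟨_, _, h3, _⟩ := hb n S ρ i G hρ
    obtain ⟨_, _, h5, _⟩ := h3 (hi.trans htn) h
    have h6 := hrr i hi.le
    have h7 := hrr (i + 1) hi
    omega
  have hcc : ∀ i ≤ t, cc S ρ i G = 0 := by
    intro i
    induction i with
    | zero => intro _; rfl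
    | succ i ih =>
      intro hi
      rw [cc, if_pos (hww i hi), ih (by omega), add_zero]
  have hXs : ∀ a, Xs S ρ t G a = Xs S ρ 0 G a := by
    intro a
    have h1 : Xn S ρ t G a = Xn S ρ 0 G a := by
      unfold Xn
      rw [hNN t le_rfl, hNN 0 (Nat.zero_le _)]
    unfold Xs
    rw [h1]
  refine ⟨htn, hNN t le_rfl, hww, hrr, hXs, fun a => ?_⟩
  unfold zz
  rw [hcc t le_rfl, add_zero, hXs, ht]

theorem rv_one (n : ℕ) : rv n 1 = n - Nat.sqrt n := by
  unfold rv
  simp

theorem init (hb : S_Basic) (hg : S_Gauss) (hw : S_Few) (hc : S_Cnt) : S_Init := by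
  refine ⟨?_, ?_⟩
  · intro y ε hε
    refine (hc y ε hε).mono 2 ?_
    intro n hn S ρ G hS hρ hE t ht
    rw [rv_one] at ht
    obtain ⟨-, hNN, -, -, -, hzz⟩ := start hb S ρ t G hρ hS hn ht
    have h1 : (NN S ρ t G).filter (fun a => y ≤ zz S ρ t G a) =
        univ.filter (fun a => a ∉ S ∧
          y ≤ √(n : ℝ) / ((n - Nat.sqrt n : ℕ) : ℝ) * Xs S ρ 0 G a) := by
      ext a
      simp only [hNN, mem_filter, mem_sdiff, mem_univ, true_and, hzz]
    rw [h1]
    have h2 := (abs_le.1 hE.1).2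
    linarith
  · intro y ε hε
    obtain ⟨_, _, _, _, hPh, _⟩ := hg
    set Y : ℝ := |y| + 2 with hY
    set ε' : ℝ := min (1 / 8) ((1 - Ph Y) / 8) with hε'
    have hPY := (hPh Y).2
    have hε'0 : 0 < ε' := lt_min (by norm_num) (by linarith)
    have hε'1 : ε' ≤ 1 / 8 := min_le_left _ _
    have hε'2 : 8 * ε' ≤ 1 - Ph Y := by
      have := min_le_right (1 / 8 : ℝ) ((1 - Ph Y) / 8)
      rw [← hε'] at this
      linarith
    refine (((hc y ε hε).and (hc (-Y) ε' hε'0)).and (hw 2 ε' (by norm_num) hε'0)).mono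
      (max 64 ⌈1 / ε' ^ 2⌉₊) ?_
    intro n hn S ρ G hS hρ ⟨⟨hE1, hE2⟩, hE3⟩ t ht
    have hn64 : 64 ≤ n := le_trans (le_max_left _ _) hn
    have hn2 : 2 ≤ n := by omega
    have hnε : 1 / ε' ^ 2 ≤ n :=
      le_trans (Nat.le_ceil _) (by exact_mod_cast le_trans (le_max_right _ _) hn)
    rw [rv_one] at ht
    obtain ⟨htn, hNN, hww, hrr, hXs, hzz⟩ := start hb S ρ t G hρ hS hn2 ht
    set x : Fin n → ℝ := fun a => √(n : ℝ) / ((n - Nat.sqrt n : ℕ) : ℝ) * Xs S ρ 0 G a with hx
    -- sizes
    have hn0 : (0 : ℝ) < n := by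
      have : 0 < n := by omega
      exact_mod_cast this
    set q : ℝ := √(n : ℝ) with hq
    have hqq : q * q = n := Real.mul_self_sqrt hn0.le
    have hq8 : 8 ≤ q := by
      rw [hq]
      apply Real.le_sqrt_of_sq_le
      have : (64 : ℝ) ≤ n := by exact_mod_cast hn64
      linarith
    have hqε : 1 / ε' ≤ q := by
      rw [hq]
      apply Real.le_sqrt_of_sq_le
      rw [one_div, inv_pow, ← one_div]
      exact hnε
    have hqε' : 1 ≤ q * ε' := by rwa [div_le_iff₀ hε'0] at hqε
    have hsq : ((Nat.sqrt n : ℕ) : ℝ) ≤ q := Real.nat_sqrt_le_real_sqrt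
    have hsn : Nat.sqrt n ≤ n := Nat.sqrt_le_self n
    have hcast : ((n - Nat.sqrt n : ℕ) : ℝ) = n - (Nat.sqrt n : ℕ) := by
      rw [Nat.cast_sub hsn]
    have hD : (n : ℝ) / 2 ≤ ((n - Nat.sqrt n : ℕ) : ℝ) := by
      rw [hcast]
      nlinarith
    have hD0 : (0 : ℝ) < ((n - Nat.sqrt n : ℕ) : ℝ) := by linarith
    have hc2 : q / ((n - Nat.sqrt n : ℕ) : ℝ) ≤ 2 / q := by
      rw [div_le_div_iff₀ hD0 (by linarith)]
      nlinarith
    -- the removed planted vertices are low
    have hlow : ∀ i < t, x (ww S ρ i G) < y := by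
      intro i hi
      have hri := hrr i hi.le
      obtain ⟨hin, hNNi, -, -, hXsi, hzzi⟩ := start hb S ρ i G hρ hS hn2 hri
      have hvS := hww i hi
      obtain ⟨_, _, _, h4, _⟩ := hb n S ρ i G hρ
      obtain ⟨_, _, _, _, h5⟩ := h4 hin hvS
      -- many non-planted vertices below -Y
      have h6 : ((univ.filter (fun a => a ∉ S ∧ -Y ≤ x a)).card : ℝ) ≤ (Ph Y + ε') * n := by
        have := (abs_le.1 hE2.1).2
        rw [neg_neg] at this
        linarith
      have h7 := hE3 i (by rw [hri]; exact hD)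
      have hex : ∃ a ∈ NN S ρ i G, x a < -Y ∧
          |Xs S ρ i G a - Xt S ρ i G a| ≤ ε' * √(n : ℝ) := by
        by_contra hno
        push Not at hno
        have h8 : univ \ S ⊆ (univ.filter (fun a => a ∉ S ∧ -Y ≤ x a)) ∪
            ((NN S ρ i G).filter (fun a => ε' * √(n : ℝ) < |Xs S ρ i G a - Xt S ρ i G a|)) := by
          intro a ha
          rw [mem_union]
          by_cases hxa : x a < -Y
          · right
            rw [mem_filter, hNNi]
            exact ⟨ha, hno a (by rw [hNNi]; exact ha) hxa⟩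
          · left
            rw [mem_filter]
            exact ⟨mem_univ _, (mem_sdiff.1 ha).2, not_lt.1 hxa⟩
        have h9 := (card_le_card h8).trans (card_union_le _ _)
        have h10 : (univ \ S).card = n - Nat.sqrt n := by
          rw [card_sdiff_of_subset (subset_univ S), card_univ, Fintype.card_fin, hS]
        rw [h10] at h9
        have h11 : ((n - Nat.sqrt n : ℕ) : ℝ) ≤
            ((univ.filter (fun a => a ∉ S ∧ -Y ≤ x a)).card : ℝ) +
            (((NN S ρ i G).filter
              (fun a => ε' * √(n : ℝ) < |Xs S ρ i G a - Xt S ρ i G a|)).card : ℝ) := by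
          exact_mod_cast h9
        rw [hcast] at h11
        have h12 : (n : ℝ) - q ≤ (Ph Y + ε') * n + ε' * n := by linarith
        have h13 : (Ph Y + ε') * n + ε' * n ≤ (1 - 6 * ε') * n := by nlinarith
        have h14 : 6 * (q * ε') * q ≤ q := by nlinarith
        nlinarith
      obtain ⟨a, haN, hxa, hXa⟩ := hex
      have h8 := h5 a haN
      have h9 := (abs_le.1 hXa).1
      have hss : (0 : ℝ) ≤ (ss S ρ i G : ℝ) := Nat.cast_nonneg _
      have h10 : Xs S ρ i G (ww S ρ i G) ≤ Xs S ρ i G a + (ε' * q + 1) := by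
        linarith
      rw [hXsi, hXsi] at h10
      have hcpos : 0 ≤ q / ((n - Nat.sqrt n : ℕ) : ℝ) := by positivity
      have h11 : x (ww S ρ i G) ≤ x a + q / ((n - Nat.sqrt n : ℕ) : ℝ) * (ε' * q + 1) := by
        have := mul_le_mul_of_nonneg_left h10 hcpos
        rw [mul_add] at this
        exact this
      have h12 : q / ((n - Nat.sqrt n : ℕ) : ℝ) * (ε' * q + 1) ≤ 1 / 2 := by
        have h13 : q / ((n - Nat.sqrt n : ℕ) : ℝ) * (ε' * q + 1) ≤ 2 / q * (ε' * q + 1) :=
          mul_le_mul_of_nonneg_right hc2 (by positivity)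
        refine h13.trans ?_
        have hq0 : 0 < q := by linarith
        rw [div_mul_eq_mul_div, div_le_iff₀ hq0]
        nlinarith
      have h14 : -|y| ≤ y := neg_abs_le y
      linarith
    -- the count
    have hsubset : univ.filter (fun a => a ∈ S ∧ y ≤ x a) ⊆
        (SS S ρ t G).filter (fun a => y ≤ zz S ρ t G a) := by
      intro a ha
      rw [mem_filter] at ha
      obtain ⟨-, haS, hya⟩ := ha
      rw [mem_filter, hzz]
      refine ⟨?_, hya⟩
      have hmem : ∀ i ≤ t, a ∈ RR S ρ i G := by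
        intro i
        induction i with
        | zero => intro _; rw [RR_zero]; exact mem_univ _
        | succ i ih =>
          intro hi
          rw [RR_succ, mem_erase]
          refine ⟨?_, ih (by omega)⟩
          intro h
          have := hlow i hi
          rw [← h] at this
          linarith
      rw [SS, mem_inter]
      exact ⟨hmem t le_rfl, haS⟩
    have h1 : ((univ.filter (fun a => a ∈ S ∧ y ≤ x a)).card : ℝ) ≤
        (((SS S ρ t G).filter (fun a => y ≤ zz S ρ t G a)).card : ℝ) := by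
      exact_mod_cast card_le_card hsubset
    refine le_trans ?_ h1
    have h2 := (abs_le.1 hE1.2).1
    have h3 : (Ph (-y) - ε) * q = Ph (-y) * √(n : ℝ) - ε * √(n : ℝ) := by
      rw [hq]; ring
    show (Ph (-y) - ε) * q ≤ _
    rw [h3]
    linarith

end

end Pool.Agent.W240.PK
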