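import Pool.Agent.W841.PK.Stm2

set_option autoImplicit false

namespace Pool.Agent.W240.PK

open Finset W841.PK
open scoped Classical symmDiff

noncomputable section

variable {n : ℕ}

theorem sum_abs_g (S : Finset (Fin n)) (b : Bool) (γ : ℝ) (g : Fin n → ℝ)
    (hS : S.card = Nat.sqrt n) (hγ : 0 ≤ γ)
    (hg : ∀ a, |g a| ≤ γ) (hs : ∀ a, (if b then a ∉ S else a ∈ S) → g a = 0)
    (T : Finset (Fin n)) : ∑ a ∈ T, |g a| ≤ γ * uu b n := by
  cases b with
  | true =>
    simp only [uu, if_true] at hs ⊢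
    have h1 : ∑ a ∈ T, |g a| ≤ ∑ a ∈ S, γ := by
      calc ∑ a ∈ T, |g a| ≤ ∑ a : Fin n, |g a| :=
            sum_le_sum_of_subset_of_nonneg (subset_univ _) fun _ _ _ => abs_nonneg _
        _ = ∑ a ∈ S, |g a| := (sum_subset (subset_univ S) fun a _ ha => by simp [hs a ha]).symm
        _ ≤ _ := sum_le_sum fun a _ => hg a
    rw [sum_const, nsmul_eq_mul, hS] at h1
    have h2 : ((Nat.sqrt n : ℕ) : ℝ) ≤ √(n : ℝ) := Real.nat_sqrt_le_real_sqrt
    calc _ ≤ _ := h1
      _ ≤ √(n : ℝ) * γ := mul_le_mul_of_nonneg_right h2 hγ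
      _ = _ := mul_comm _ _
  | false =>
    have h1 : ∑ a ∈ T, |g a| ≤ ∑ a : Fin n, γ := by
      calc ∑ a ∈ T, |g a| ≤ ∑ a : Fin n, |g a| :=
            sum_le_sum_of_subset_of_nonneg (subset_univ _) fun _ _ _ => abs_nonneg _
        _ ≤ _ := sum_le_sum fun a _ => hg a
    rw [sum_const, nsmul_eq_mul, card_univ, Fintype.card_fin] at h1
    simp only [uu, Bool.false_eq_true, if_false]
    linarith

theorem t4 (hb : S_Basic) (hc : S_PRC) (hd : S_DYcnt) : S_T4 := by
  intro V0 C hV hC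
  obtain ⟨K1, n1, h1⟩ := hd V0 C hV hC
  refine ⟨|K1| * (16 / 7) + 1 + 12 * C, max n1 2, ?_⟩
  intro n hn S ρ t G hS hρ hPR hAct b γ g hγ hg hs
  have hn1 : n1 ≤ n := le_trans (le_max_left _ _) hn
  have hn2 : 2 ≤ n := le_trans (le_max_right _ _) hn
  have hn1' : (1 : ℝ) ≤ n := by
    have : 1 ≤ n := by omega
    exact_mod_cast this
  have hn0 : (0 : ℝ) < n := by linarith
  have hlog : 0 ≤ Real.log n := Real.log_nonneg hn1'
  obtain ⟨hbad, -⟩ := h1 n hn1 S ρ t G hS hρ hPR hAct
  have hC0 : 0 < C := by linarith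
  set q : ℝ := (n : ℝ) ^ ((7 : ℝ) / 16) with hq
  have hq0 : 0 < q := Real.rpow_pos_of_pos hn0 _
  have hq1 : 1 ≤ q := Real.one_le_rpow hn1' (by norm_num)
  have huu : 0 ≤ uu b n := by
    unfold uu
    split_ifs <;> positivity
  have hgu : 0 ≤ γ * uu b n := mul_nonneg hγ huu
  have hBd : γ * uu b n * q ≤ Bd S ρ t G b γ := by
    unfold Bd
    rw [← hq]
    have : 0 ≤ |Xt S ρ t G (ww S ρ t G)| / √(n : ℝ) := by positivity
    have h2 : 0 ≤ γ * uu b n * q := by positivity
    nlinarith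
  have hBd1 : γ * uu b n ≤ Bd S ρ t G b γ := by
    refine le_trans ?_ hBd
    nlinarith
  have hBd0 : 0 ≤ Bd S ρ t G b γ := hgu.trans hBd1
  have hlogq : Real.log n ≤ 16 / 7 * q := by
    have := Real.log_le_rpow_div (x := (n : ℝ)) hn0.le (show (0 : ℝ) < 7 / 16 by norm_num)
    rw [← hq] at this
    linarith
  have hK0 : 0 ≤ |K1| := abs_nonneg _
  refine ⟨?_, ?_, ?_⟩
  · -- T4g
    have e1 : |T4g S ρ t G g| ≤ ∑ w2 ∈ bad2 S ρ t G, γ * uu b n := by
      unfold T4g
      refine (abs_sum_le_sum_abs _ _).trans (sum_le_sum fun w2 _ => ?_)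
      refine (abs_sum_le_sum_abs _ _).trans ?_
      refine le_trans (sum_le_sum fun a _ => ?_) (sum_abs_g S b γ g hS hγ hg hs
        (((RR S ρ t G).erase (ww S ρ t G)).erase w2))
      rw [mul_div_assoc, abs_mul]
      have h2 := abs_ee_le G a (ww S ρ t G)
      have h3 := abs_ee_le G a w2
      have h4 : |(ee G a (ww S ρ t G) - ee G a w2) / 2| ≤ 1 := by
        rw [abs_le] at *
        constructor <;> linarith [h2.1, h2.2, h3.1, h3.2]
      nlinarith [abs_nonneg (g a)]
    rw [sum_const, nsmul_eq_mul] at e1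
    have e2 : ((bad2 S ρ t G).card : ℝ) ≤ |K1| * (16 / 7) * q := by
      calc ((bad2 S ρ t G).card : ℝ) ≤ K1 * Real.log n := hbad
        _ ≤ |K1| * Real.log n := mul_le_mul_of_nonneg_right (le_abs_self _) hlog
        _ ≤ |K1| * (16 / 7 * q) := mul_le_mul_of_nonneg_left hlogq hK0
        _ = _ := by ring
    calc |T4g S ρ t G g| ≤ _ := e1
      _ ≤ |K1| * (16 / 7) * q * (γ * uu b n) := mul_le_mul_of_nonneg_right e2 hgu
      _ = |K1| * (16 / 7) * (γ * uu b n * q) := by ring
      _ ≤ |K1| * (16 / 7) * Bd S ρ t G b γ := mul_le_mul_of_nonneg_left hBd (by positivity)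
      _ ≤ _ := mul_le_mul_of_nonneg_right (by linarith) hBd0
  · have e1 : |∑ a ∈ (NN S ρ t G).erase (ww S ρ t G), g a * ee G a (ww S ρ t G)| ≤
        γ * uu b n := by
      refine (abs_sum_le_sum_abs _ _).trans ?_
      refine le_trans (sum_le_sum fun a _ => ?_) (sum_abs_g S b γ g hS hγ hg hs
        ((NN S ρ t G).erase (ww S ρ t G)))
      rw [abs_mul]
      have h2 := abs_ee_le G a (ww S ρ t G)
      nlinarith [abs_nonneg (g a)]
    calc _ ≤ _ := e1
      _ ≤ _ := hBd1
      _ = 1 * Bd S ρ t G b γ := (one_mul _).symm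
      _ ≤ _ := mul_le_mul_of_nonneg_right (by nlinarith) hBd0
  · -- third sum
    have hterm : ∀ a, |g a * (Xs S ρ t G a - Xn S ρ t G a)| ≤
        (if b then 0 else γ * |∑ c ∈ S, ee G a c|) := by
      intro a
      by_cases haS : a ∈ S
      · have : Xs S ρ t G a - Xn S ρ t G a = 0 := by simp [Xs, haS]
        rw [this, mul_zero, abs_zero]
        split_ifs
        · exact le_rfl
        · positivity
      · have hX : Xs S ρ t G a - Xn S ρ t G a = ∑ c ∈ S, ee G a c := by simp [Xs, haS]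
        rw [hX]
        cases b with
        | true =>
          have := hs a (by simpa using haS)
          simp [this]
        | false =>
          simp only [Bool.false_eq_true, if_false]
          rw [abs_mul]
          exact mul_le_mul_of_nonneg_right (hg a) (abs_nonneg _)
    have e1 : |∑ a ∈ (RR S ρ t G).erase (ww S ρ t G), g a * (Xs S ρ t G a - Xn S ρ t G a)| ≤
        ∑ a ∈ (RR S ρ t G).erase (ww S ρ t G), (if b then 0 else γ * |∑ c ∈ S, ee G a c|) :=
      (abs_sum_le_sum_abs _ _).trans (sum_le_sum fun a _ => hterm a)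
    refine e1.trans ?_
    cases b with
    | true =>
      simp only [if_true, sum_const_zero]
      positivity
    | false =>
      simp only [Bool.false_eq_true, if_false]
      rw [← mul_sum]
      obtain ⟨-, hc2, -⟩ := hc n C G hn2 hC hPR
      have e2 := hc2 (fun _ => 1) ((RR S ρ t G).erase (ww S ρ t G)) S (fun _ => by simp)
      simp only [one_mul] at e2
      set A := (RR S ρ t G).erase (ww S ρ t G) with hA
      have hAn : (A.card : ℝ) ≤ n := by
        have := card_le_univ A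
        rw [Fintype.card_fin] at this
        exact_mod_cast this
      have hSn : (S.card : ℝ) ≤ √(n : ℝ) := by
        rw [hS]; exact Real.nat_sqrt_le_real_sqrt
      have hSn' : (S.card : ℝ) ≤ n := by
        rw [hS]; exact_mod_cast Nat.sqrt_le_self n
      have hlog2 : Real.log n ≤ 8 / 3 * (n : ℝ) ^ ((3 : ℝ) / 8) := by
        have := Real.log_le_rpow_div (x := (n : ℝ)) hn0.le (show (0 : ℝ) < 3 / 8 by norm_num)
        linarith
      have hq2 : √(n : ℝ) * (n : ℝ) ^ ((3 : ℝ) / 8) = q ^ 2 := by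
        rw [Real.sqrt_eq_rpow, ← Real.rpow_add hn0, hq, ← Real.rpow_natCast, ← Real.rpow_mul hn0.le]
        norm_num
      have hp0 : 0 ≤ (n : ℝ) ^ ((3 : ℝ) / 8) := Real.rpow_nonneg hn0.le _
      clear_value q
      generalize (n : ℝ) ^ ((3 : ℝ) / 8) = p at hq2 hlog2 hp0
      have e3 : (A.card : ℝ) * S.card * ((A.card : ℝ) + S.card) * Real.log n ≤
          (3 * n * q) ^ 2 := by
        have f0 : 0 ≤ √(n : ℝ) := Real.sqrt_nonneg _
        have f00 : (0 : ℝ) ≤ A.card := Nat.cast_nonneg _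
        have f01 : (0 : ℝ) ≤ S.card := Nat.cast_nonneg _
        have f1 : (A.card : ℝ) * S.card ≤ (n : ℝ) * √(n : ℝ) :=
          mul_le_mul hAn hSn f01 hn0.le
        have f2 : (A.card : ℝ) * S.card * ((A.card : ℝ) + S.card) ≤
            (n : ℝ) * √(n : ℝ) * (2 * (n : ℝ)) :=
          mul_le_mul f1 (by linarith) (add_nonneg f00 f01) (mul_nonneg hn0.le f0)
        have f3 : (A.card : ℝ) * S.card * ((A.card : ℝ) + S.card) * Real.log n ≤
            (n : ℝ) * √(n : ℝ) * (2 * (n : ℝ)) * (8 / 3 * p) :=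
          mul_le_mul f2 hlog2 hlog (mul_nonneg (mul_nonneg hn0.le f0) (by linarith))
        have f4 : (n : ℝ) * √(n : ℝ) * (2 * (n : ℝ)) * (8 / 3 * p) =
            16 / 3 * (n : ℝ) ^ 2 * (√(n : ℝ) * p) := by ring
        rw [f4, hq2] at f3
        have f5 : 0 ≤ (n : ℝ) ^ 2 * q ^ 2 := mul_nonneg (sq_nonneg _) (sq_nonneg _)
        nlinarith
      have e4 : √((A.card : ℝ) * S.card * ((A.card : ℝ) + S.card) * Real.log n) ≤ 3 * n * q :=
        Real.sqrt_le_iff.2 ⟨by positivity, e3⟩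
      calc γ * ∑ a ∈ A, |∑ c ∈ S, ee G a c| ≤
          γ * (4 * C * √((A.card : ℝ) * S.card * ((A.card : ℝ) + S.card) * Real.log n)) :=
            mul_le_mul_of_nonneg_left e2 hγ
        _ ≤ γ * (4 * C * (3 * n * q)) :=
            mul_le_mul_of_nonneg_left (mul_le_mul_of_nonneg_left e4 (by positivity)) hγ
        _ = 12 * C * (γ * uu false n * q) := by simp only [uu, Bool.false_eq_true, if_false]; ring
        _ ≤ 12 * C * Bd S ρ t G false γ := mul_le_mul_of_nonneg_left hBd (by positivity)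
        _ ≤ _ := mul_le_mul_of_nonneg_right (by nlinarith) hBd0

end

end Pool.Agent.W240.PK
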